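import Mathlib
import Pool.Agent.H139R3.MSMain

set_option autoImplicit false

/-!
Groups with a rich action on `{0,1,2}^L` are minimal subshift universal (the proofs are those of
`Pool.Agent.H139R3.MSMain`, for an arbitrary acting group).
-/

namespace Pool.Agent.Y617.FT

open Set MeasureTheory Pool.Agent.H139R3 Pool.Agent.H139R3.MS

universe u

open Classical in
/-- The acting group contains all shifts and all three-cycles at one coordinate, and every element
is a shift followed by a finite coordinate change. -/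
structure Rich {G : Type} [Group G] (T : G →* (X ≃ₜ X)) : Prop where
  sh_mem : ∀ l : L, sh l ∈ T.range
  cyc_mem : ∀ (l : L) (k : ℕ), dg (Pi.mulSingle l (rho ^ k)) ∈ T.range
  form : ∀ g : G, ∃ (t : L → Equiv.Perm (Fin 3)) (l : L),
    (Function.mulSupport t).Finite ∧ T g = dg t * sh l

section

variable {G : Type} [Group G] (T : G →* (X ≃ₜ X))

/-- The coding map. -/
noncomputable def Pc (x : X) : G → Bool := fun g => decide (T g⁻¹ x 1 = 0)

theorem Pc_shift (g : G) (x : X) : Pc T (T g x) = shift g (Pc T x) := by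
  funext h
  unfold Pc shift
  beta_reduce
  rw [mul_inv_rev, inv_inv, map_mul]
  rfl

theorem continuous_Pc : Continuous (Pc T) := by
  refine continuous_pi fun g => ?_
  unfold Pc
  exact (continuous_of_discreteTopology (f := fun i : Fin 3 => decide (i = 0))).comp
    ((continuous_apply 1).comp (T g⁻¹).continuous)

variable {T}

theorem Pc_injective (hT : Rich T) : Function.Injective (Pc T) := by
  classical
  intro x y h
  have h1 : ∀ g : G, T g x 1 = 0 ↔ T g y 1 = 0 := by
    intro g
    have := congrFun h g⁻¹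
    unfold Pc at this
    rw [inv_inv] at this
    simpa using this
  funext m
  obtain ⟨k, hk⟩ := rho_trans (x m) 0
  have hmem : dg (Pi.mulSingle 1 (rho ^ k)) * sh m⁻¹ ∈ T.range :=
    mul_mem (hT.cyc_mem 1 k) (hT.sh_mem _)
  obtain ⟨g, hg⟩ := hmem
  have e : ∀ z : X, T g z 1 = (rho ^ k) (z m) := by
    intro z
    rw [hg]
    show (Pi.mulSingle 1 (rho ^ k) : L → Equiv.Perm (Fin 3)) 1 (sh m⁻¹ z 1) = _
    rw [Pi.mulSingle_eq_same, sh_apply]
    simp
  have h2 := h1 g
  rw [e, e] at h2
  have h3 := h2.1 hk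
  exact (rho ^ k).injective (hk.trans h3.symm)

theorem reachT (hT : Rich T) (x y : X) (F : Finset L) :
    ∃ g : G, ∀ m ∈ F, T g x m = y m := by
  classical
  suffices h : ∃ t : L → Equiv.Perm (Fin 3), dg t ∈ T.range ∧ ∀ m ∈ F, t m (x m) = y m by
    obtain ⟨t, ⟨g, hg⟩, ht⟩ := h
    refine ⟨g, fun m hm => ?_⟩
    rw [hg, dg_apply, ht m hm]
  induction F using Finset.induction_on with
  | empty => exact ⟨1, by rw [map_one]; exact one_mem _, fun m hm => by simp at hm⟩
  | insert l F hl ih =>
    obtain ⟨t, ht1, ht2⟩ := ih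
    obtain ⟨k, hk⟩ := rho_trans (t l (x l)) (y l)
    refine ⟨Pi.mulSingle l (rho ^ k) * t, ?_, ?_⟩
    · rw [map_mul]
      exact mul_mem (hT.cyc_mem l k) ht1
    · intro m hm
      rw [Pi.mul_apply]
      rcases Finset.mem_insert.1 hm with rfl | hm
      · rw [Pi.mulSingle_eq_same]
        exact hk
      · have : m ≠ l := fun h => hl (h ▸ hm)
        rw [Pi.mulSingle_eq_of_ne this, one_mul]
        exact ht2 m hm

theorem dense_orbitT (hT : Rich T) (x y : X) : y ∈ closure (range fun g : G => T g x) := by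
  classical
  rw [mem_closure_iff]
  intro U hU hy
  obtain ⟨F, u, hu, hsub⟩ := isOpen_pi_iff.1 hU y hy
  obtain ⟨g, hg⟩ := reachT hT x y F
  refine ⟨T g x, hsub ?_, g, rfl⟩
  intro m hm
  rw [hg m hm]
  exact (hu m hm).2

theorem reductionT (hT : Rich T) {Y : Type u} [MeasurableSpace Y] [StandardBorelSpace Y]
    (R : Y → Y → Prop) (hR : Equivalence R) (hm : MeasurableSet {p : Y × Y | R p.1 p.2})
    (hc : ∀ y, {z | R y z}.Countable) :
    ∃ f : Y → (G → Bool), Measurable f ∧ (∀ y, f y ∈ range (Pc T)) ∧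
      ∀ y z, R y z ↔ ∃ g, f z = shift g (f y) := by
  obtain ⟨s, hsm, hs, hsR⟩ := FM.feldman_moore R hR hm hc
  obtain ⟨e, he, hinj⟩ := MeasurableSpace.measurable_injection_nat_bool_of_countablySeparated Y
  refine ⟨fun y => Pc T (it s hs e (y, (0, 2))), ?_, fun y => ⟨_, rfl⟩, ?_⟩
  · rw [measurable_pi_iff]
    intro g
    obtain ⟨t, l, -, hg⟩ := hT.form g⁻¹
    unfold Pc
    rw [hg]
    have : (fun y : Y => decide ((dg t * sh l) (it s hs e (y, (0, 2))) 1 = 0)) =
        (fun i : Fin 3 => decide (t 1 i = 0)) ∘ (fun y : Y => it s hs e (y, (0, 2)) (l⁻¹ * 1)) := by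
      funext y
      rfl
    rw [this]
    exact (measurable_of_countable (fun i : Fin 3 => decide (t 1 i = 0))).comp
      (measurable_it s hs hsm e he _)
  · intro y z
    constructor
    · intro h
      obtain ⟨n, hn⟩ := (hsR y z).1 h
      obtain ⟨g, hg⟩ := hT.sh_mem (om n)
      refine ⟨g, ?_⟩
      rw [← Pc_shift, hg, sh_it, th_om, hn]
    · rintro ⟨g, hg⟩
      rw [← Pc_shift] at hg
      have h1 := Pc_injective hT hg
      obtain ⟨t, l, ht, hf⟩ := hT.form g
      rw [hf] at h1
      have h2 : it s hs e (th s hs l (y, (0, 2))) = it s hs e (z, (0, 2)) := by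
        apply robust
        refine ht.subset ?_
        intro m hm
        rw [Function.mem_mulSupport]
        intro hcon
        apply hm
        rw [h1, ← sh_it]
        show _ = t m (sh l (it s hs e (y, (0, 2))) m)
        rw [hcon]
        rfl
      have h3 := it_inj s hs e hinj _ z h2
      have h4 := th_rel s hs R hR (fun n x => (hsR x _).2 ⟨n, rfl⟩) l (y, (0, 2))
      rw [h3] at h4
      exact h4

/-- A group with a rich action is minimal subshift universal. -/
theorem universal_of_rich (hT : Rich T) : MinimalSubshiftUniversal.{u} G := by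
  refine ⟨range (Pc T), ?_, ?_⟩
  · refine ⟨⟨⟨Pc T (fun _ => 0), _, rfl⟩, (isCompact_range (continuous_Pc T)).isClosed, ?_⟩, ?_⟩
    · rintro g _ ⟨x, rfl⟩
      exact ⟨T g x, Pc_shift T g x⟩
    · rintro _ ⟨x, rfl⟩ _ ⟨y, rfl⟩
      have h := image_closure_subset_closure_image (continuous_Pc T) ⟨y, dense_orbitT hT x y, rfl⟩
      rw [← range_comp] at h
      convert h using 3
      funext g
      exact (Pc_shift T g x).symm
  · intro Y _ _ R hR
    obtain ⟨f, hf, hK, h⟩ := reductionT hT R hR.1 hR.2.1 hR.2.2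
    exact ⟨fun y => ⟨f y, hK y⟩, hf.subtype_mk, h⟩

end

theorem Rich.comp {G G' : Type} [Group G] [Group G'] {T : G →* (X ≃ₜ X)} (hT : Rich T)
    (π : G' →* G) (hπ : Function.Surjective π) : Rich (T.comp π) where
  sh_mem := by
    intro l
    obtain ⟨g, hg⟩ := hT.sh_mem l
    obtain ⟨g', rfl⟩ := hπ g
    exact ⟨g', hg⟩
  cyc_mem := by
    intro l k
    obtain ⟨g, hg⟩ := hT.cyc_mem l k
    obtain ⟨g', rfl⟩ := hπ g
    exact ⟨g', hg⟩
  form := fun g => hT.form (π g)

/-- The group `⟨s, t | s ^ 6⟩`. -/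
abbrev C6Z : Type := PresentedGroup ({FreeGroup.of 0 ^ 6} : Set (FreeGroup (Fin 2)))

theorem six : (sh a * dg sg) ^ 6 = 1 := by
  rw [comm_a.mul_pow, ← map_pow, show (6 : ℕ) = 3 * 2 from rfl, pow_mul, a_cube, one_pow, map_one,
    one_mul, show (3 * 2 : ℕ) = 2 * 3 from rfl, pow_mul, dg_sg_sq, one_pow]

/-- The action of `⟨s, t | s ^ 6⟩`. -/
noncomputable def T6 : C6Z →* (X ≃ₜ X) :=
  PresentedGroup.toGroup (f := ![sh a * dg sg, sh b]) (by
    intro r hr
    simp only [mem_singleton_iff] at hr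
    subst hr
    rw [map_pow, FreeGroup.lift_apply_of]
    exact six)

theorem T6_mk (g : FreeGroup (Fin 2)) :
    T6 (PresentedGroup.mk ({FreeGroup.of 0 ^ 6} : Set (FreeGroup (Fin 2))) g) = Th g := rfl

theorem rich_T6 : Rich T6 where
  sh_mem := by
    intro l
    obtain ⟨g, hg⟩ := MS.sh_mem l
    exact ⟨_, (T6_mk g).trans hg⟩
  cyc_mem := by
    intro l k
    obtain ⟨g, hg⟩ := dg_single_mem l k
    exact ⟨_, (T6_mk g).trans hg⟩
  form := by
    intro g
    obtain ⟨g', rfl⟩ := PresentedGroup.mk_surjective _ g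
    rw [T6_mk]
    exact MS.form g'

end Pool.Agent.Y617.FT
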